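import Pool.Agent.Y190.AH.Tf
import Pool.Agent.W602.GT.Rat

/-!
Arithmetic hyperbolicity and grouplessness: points over finitely generated rings and fields, and
curves.
-/

set_option autoImplicit false

set_option linter.unusedSectionVars false

open FF Pool.Agent.W603.LV Pool.Agent.W603.PV Pool.Agent.W602.GT Pool.Agent.Y190.BV
  Pool.Agent.Y190.GN Pool.Agent.Y190.AH
open LinearAlgebra.Projectivization

namespace Pool.Agent.Y190.AG

section defs

variable {K : Type} [Field K] {N : ℕ} {ι κ : Type}

/-- The points with coordinates in `L` of `V = {F = 0}` that are not in `Z = {G = 0}` and that have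
homogeneous coordinates in the field generated over `k0` by the set `T`. -/
def FieldPts (F : ι → MvPolynomial (Fin (N + 1)) K) (G : κ → MvPolynomial (Fin (N + 1)) K)
    (k0 : Subfield K) {L : Type} [Field L] [Algebra K L] (T : Finset L) :
    Set (ℙ L (Fin (N + 1) → L)) :=
  {p | ∃ x : Fin (N + 1) → L, (∀ e, val x (F e) = 0) ∧ (∃ e, val x (G e) ≠ 0) ∧
    (∀ i, x i ∈ Subfield.closure ((k0.map (algebraMap K L) : Set L) ∪ (T : Set L))) ∧
    ∃ hx : x ≠ 0, p = Projectivization.mk L x hx}

/-- The points of `V = {F = 0}` that are not in `Z = {G = 0}` and that have homogeneous coordinates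
in the ring `A` generated by the set `T` which generate the unit ideal of `A`. -/
def RingPts (F : ι → MvPolynomial (Fin (N + 1)) K) (G : κ → MvPolynomial (Fin (N + 1)) K)
    (T : Finset K) : Set (ℙ K (Fin (N + 1) → K)) :=
  {p | ∃ x : Fin (N + 1) → K, (∀ e, val x (F e) = 0) ∧ (∃ e, val x (G e) ≠ 0) ∧
    (∀ i, x i ∈ Subring.closure (T : Set K)) ∧
    (∃ c : Fin (N + 1) → K, (∀ i, c i ∈ Subring.closure (T : Set K)) ∧ ∑ i, c i * x i = 1) ∧
    ∃ hx : x ≠ 0, p = Projectivization.mk K x hx}

/-- `f` is a morphism from the smooth projective curve with function field `L` to `V = {F = 0}`,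
given by its homogeneous coordinates, whose image is not contained in `Z = {G = 0}`. -/
def MapOff (F : ι → MvPolynomial (Fin (N + 1)) K) (G : κ → MvPolynomial (Fin (N + 1)) K)
    {L : Type} [Field L] [Algebra K L] (f : Fin (N + 1) → L) : Prop :=
  f ≠ 0 ∧ (∀ e, val f (F e) = 0) ∧ ∃ e, val f (G e) ≠ 0

/-- `V` is algebraically hyperbolic modulo `Z`. -/
def AlgHypOff (F : ι → MvPolynomial (Fin (N + 1)) K) (G : κ → MvPolynomial (Fin (N + 1)) K) :
    Prop :=
  ∃ B : ℕ, ∀ (L : Type) [Field L] [Algebra K L] [IsFF K L] (f : Fin (N + 1) → L),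
    MapOff F G f → pht K f ≤ B * max (canDeg K L) 0

/-- The degrees of the morphisms from each curve to `V`, with image not in `Z`, are bounded. -/
def BoundedOff (F : ι → MvPolynomial (Fin (N + 1)) K) (G : κ → MvPolynomial (Fin (N + 1)) K) :
    Prop :=
  ∀ (L : Type) [Field L] [Algebra K L] [IsFF K L], ∃ B : ℤ, ∀ f : Fin (N + 1) → L,
    MapOff F G f → pht K f ≤ B

/-- The morphisms from curves of genus at most `1` to `V` are constant, or have images in `Z`. -/
def GenusOneOff (F : ι → MvPolynomial (Fin (N + 1)) K) (G : κ → MvPolynomial (Fin (N + 1)) K) :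
    Prop :=
  ∀ (L : Type) [Field L] [Algebra K L] [IsFF K L], canDeg K L ≤ 0 → ∀ f : Fin (N + 1) → L,
    MapOff F G f → ∃ (c : L) (x : Fin (N + 1) → K), ∀ i, f i = c * algebraMap K L (x i)

/-- The morphisms from the multiplicative group to `V` are constant, or have images in `Z`. -/
def GmOff (F : ι → MvPolynomial (Fin (N + 1)) K) (G : κ → MvPolynomial (Fin (N + 1)) K) :
    Prop :=
  ∀ P, GmCurve F P → ∀ t : K, t ≠ 0 → ∀ e, val (fun i => (P i).eval t) (G e) = 0

/-- The lines contained in `V` are contained in `Z`. -/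
def LineOff (F : ι → MvPolynomial (Fin (N + 1)) K) (G : κ → MvPolynomial (Fin (N + 1)) K) :
    Prop :=
  ∀ p q, Line F p q → ∀ (c c' : K) (e : κ), val (c • p + c' • q) (G e) = 0

end defs

section

variable {K : Type} [Field K] {N : ℕ} {ι κ : Type}

theorem wedge {p q : Fin (N + 1) → K} (h : LinearIndependent K ![p, q]) :
    ∃ i j, p i * q j - p j * q i ≠ 0 := by
  rw [LinearIndependent.pair_iff] at h
  by_contra hcon
  push Not at hcon
  by_cases hx : p = 0
  · have h1 := h 1 0 (by rw [hx]; simp)
    exact one_ne_zero h1.1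
  · obtain ⟨i, hi⟩ := Function.ne_iff.1 hx
    have hxi : p i ≠ 0 := hi
    have h1 := h (q i) (- p i) (by
      funext j
      simp only [Pi.add_apply, Pi.smul_apply, smul_eq_mul, Pi.zero_apply]
      linear_combination -(hcon i j))
    exact hxi (neg_eq_zero.1 h1.2)

theorem li_of_wedge {p q : Fin (N + 1) → K} {i j : Fin (N + 1)}
    (h : p i * q j - p j * q i ≠ 0) : LinearIndependent K ![p, q] := by
  rw [LinearIndependent.pair_iff]
  intro c c' hcc
  have e1 := congrFun hcc i
  have e2 := congrFun hcc j
  simp only [Pi.add_apply, Pi.smul_apply, smul_eq_mul, Pi.zero_apply] at e1 e2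
  have h1 : c * (p i * q j - p j * q i) = 0 := by
    linear_combination q j * e1 - q i * e2
  have h2 : c' * (p i * q j - p j * q i) = 0 := by
    linear_combination p i * e2 - p j * e1
  exact ⟨(mul_eq_zero.1 h1).resolve_right h, (mul_eq_zero.1 h2).resolve_right h⟩

/-- change of the basis of a line -/
theorem line_left {F : ι → MvPolynomial (Fin (N + 1)) K} {p q : Fin (N + 1) → K} (h : Line F p q)
    {c : K} (hc : c ≠ 0) (c' : K) : Line F (c • p + c' • q) q := by
  obtain ⟨i, j, hij⟩ := wedge h.1
  refine ⟨li_of_wedge (i := i) (j := j) ?_, fun d d' e => ?_⟩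
  · have h1 : (c • p + c' • q) i * q j - (c • p + c' • q) j * q i =
        c * (p i * q j - p j * q i) := by
      simp only [Pi.add_apply, Pi.smul_apply, smul_eq_mul]
      ring
    rw [h1]
    exact mul_ne_zero hc hij
  · have h1 : d • (c • p + c' • q) + d' • q = (d * c) • p + (d * c' + d') • q := by
      funext l
      simp only [Pi.add_apply, Pi.smul_apply, smul_eq_mul]
      ring
    rw [h1]
    exact h.2 _ _ e

theorem line_swap {F : ι → MvPolynomial (Fin (N + 1)) K} {p q : Fin (N + 1) → K}
    (h : Line F p q) : Line F q p := by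
  obtain ⟨i, j, hij⟩ := wedge h.1
  refine ⟨li_of_wedge (i := j) (j := i) ?_, fun d d' e => ?_⟩
  · intro h0
    apply hij
    linear_combination h0
  · rw [add_comm]
    exact h.2 d' d e

/-- a line that is not in `Z` has a basis with its first point not in `Z` -/
theorem exists_base {F : ι → MvPolynomial (Fin (N + 1)) K}
    {G : κ → MvPolynomial (Fin (N + 1)) K} (hG : ∀ e, IsForm (G e)) (h : ¬ LineOff F G) :
    ∃ u v e, Line F u v ∧ val u (G e) ≠ 0 := by
  by_contra hcon
  push Not at hcon
  apply h
  intro p q hpq c c' e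
  by_cases hc : c = 0
  · by_cases hc' : c' = 0
    · obtain ⟨d, hd⟩ := hG e
      rw [hc, hc', zero_smul, zero_smul, add_zero]
      have h1 : (0 : Fin (N + 1) → K) = fun l => (0 : K) * p l := by
        funext l
        simp
      rw [h1, val_smul hd, hcon p q e hpq, mul_zero]
    · rw [add_comm]
      exact hcon _ _ e (line_left (line_swap hpq) hc' c)
  · exact hcon _ _ e (line_left hpq hc c')

/-- a line that is not in `Z` has infinitely many points over a finitely generated ring -/
theorem ring_infinite [CharZero K] {F : ι → MvPolynomial (Fin (N + 1)) K}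
    {G : κ → MvPolynomial (Fin (N + 1)) K} {u v : Fin (N + 1) → K} {e : κ} (h : Line F u v)
    (he : val u (G e) ≠ 0) : ∃ T : Finset K, (RingPts F G T).Infinite := by
  classical
  obtain ⟨i, j, hij⟩ := wedge h.1
  let T : Finset K := Finset.univ.image u ∪ Finset.univ.image v ∪
    {(u i * v j - u j * v i)⁻¹}
  have hu : ∀ l, u l ∈ Subring.closure (T : Set K) := fun l => Subring.subset_closure (by
    simp [T])
  have hv : ∀ l, v l ∈ Subring.closure (T : Set K) := fun l => Subring.subset_closure (by
    simp [T])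
  have hw : (u i * v j - u j * v i)⁻¹ ∈ Subring.closure (T : Set K) := Subring.subset_closure (by
    simp [T])
  refine ⟨T, ?_⟩
  let P : Fin (N + 1) → Polynomial K := fun l => Polynomial.C (u l) +
    Polynomial.X * Polynomial.C (v l)
  have hP : ∀ t : K, (fun l => (P l).eval t) = (1 : K) • u + t • v := by
    intro t
    funext l
    simp only [P, Polynomial.eval_add, Polynomial.eval_mul, Polynomial.eval_C, Polynomial.eval_X,
      Pi.add_apply, Pi.smul_apply, smul_eq_mul, one_mul]
  obtain ⟨Q, hQ, -⟩ := val_poly P (G e)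
  have hQ0 : Q ≠ 0 := by
    rintro rfl
    have h1 := hQ 0
    rw [hP, one_smul, zero_smul, add_zero, Polynomial.eval_zero] at h1
    exact he h1.symm
  have hS : {t : ℕ | Q.eval (t : K) = 0}.Finite := by
    have h2 : {x : K | Q.eval x = 0}.Finite := by
      refine (Q.roots.toFinset.finite_toSet).subset fun x hx => ?_
      simp only [Finset.mem_coe, Multiset.mem_toFinset, Polynomial.mem_roots hQ0]
      exact hx
    exact h2.preimage (Nat.cast_injective.injOn)
  have hwt : ∀ t : K, ((1 : K) • u + t • v) i * v j - ((1 : K) • u + t • v) j * v i =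
      u i * v j - u j * v i := by
    intro t
    simp only [Pi.add_apply, Pi.smul_apply, smul_eq_mul, one_mul]
    ring
  have hne : ∀ t : K, (1 : K) • u + t • v ≠ 0 := by
    intro t h0
    apply hij
    rw [← hwt t, h0]
    simp
  have hinf : {t : ℕ | Q.eval (t : K) = 0}ᶜ.Infinite := hS.infinite_compl
  refine Set.infinite_of_injOn_mapsTo (f := fun t : ℕ =>
    Projectivization.mk K ((1 : K) • u + (t : K) • v) (hne t)) ?_ ?_ hinf
  · intro s _ t _ hst
    change Projectivization.mk K _ _ = Projectivization.mk K _ _ at hst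
    rw [Projectivization.mk_eq_mk_iff'] at hst
    obtain ⟨c, hc⟩ := hst
    have h1 := congrFun hc i
    have h2 := congrFun hc j
    simp only [Pi.add_apply, Pi.smul_apply, smul_eq_mul, one_mul] at h1 h2
    have h3 : c * (u i * v j - u j * v i) = u i * v j - u j * v i := by
      linear_combination v j * h1 - v i * h2
    have h4 : c = 1 := by
      have h5 : (c - 1) * (u i * v j - u j * v i) = 0 := by rw [sub_mul, one_mul, h3, sub_self]
      exact sub_eq_zero.1 ((mul_eq_zero.1 h5).resolve_right hij)
    rw [h4] at h1 h2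
    have h6 : ((t : K) - s) * (u i * v j - u j * v i) = 0 := by
      linear_combination u i * h2 - u j * h1
    have h7 := sub_eq_zero.1 ((mul_eq_zero.1 h6).resolve_right hij)
    exact_mod_cast h7.symm
  · intro t ht
    have ht' : Q.eval (t : K) ≠ 0 := ht
    refine ⟨(1 : K) • u + (t : K) • v, h.2 1 t, ⟨e, ?_⟩, fun l => ?_,
      ⟨fun l => (if l = i then (u i * v j - u j * v i)⁻¹ * v j else 0) -
        (if l = j then (u i * v j - u j * v i)⁻¹ * v i else 0), fun l => ?_, ?_⟩,
      hne t, rfl⟩
    · rw [← hP, ← hQ]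
      exact ht'
    · simp only [Pi.add_apply, Pi.smul_apply, smul_eq_mul, one_mul]
      exact add_mem (hu l) (mul_mem (natCast_mem _ t) (hv l))
    · dsimp only
      refine sub_mem ?_ ?_
      · split_ifs
        · exact mul_mem hw (hv j)
        · exact zero_mem _
      · split_ifs
        · exact mul_mem hw (hv i)
        · exact zero_mem _
    · have h1 := hwt t
      simp only [sub_mul, ite_mul, zero_mul, Finset.sum_sub_distrib, Finset.sum_ite_eq',
        Finset.mem_univ, if_true]
      have h2 : (u i * v j - u j * v i)⁻¹ * (u i * v j - u j * v i) = 1 := inv_mul_cancel₀ hij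
      obtain ⟨X, hX⟩ : ∃ X, X = ((1 : K) • u + (t : K) • v) i := ⟨_, rfl⟩
      obtain ⟨Y, hY⟩ : ∃ Y, Y = ((1 : K) • u + (t : K) • v) j := ⟨_, rfl⟩
      rw [← hX, ← hY] at h1 ⊢
      linear_combination h2 + (u i * v j - u j * v i)⁻¹ * h1

end

end Pool.Agent.Y190.AG
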