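import Pool.Agent.Y190.AG.Base
import Pool.Agent.Y190.GN.Main

/-!
Points over extensions.
-/

set_option autoImplicit false

set_option linter.unusedSectionVars false

open FF Pool.Agent.W603.LV Pool.Agent.W603.PV Pool.Agent.W602.GT Pool.Agent.Y190.BV
  Pool.Agent.Y190.GN Pool.Agent.Y190.AH Pool.Agent.Y190.QP
open LinearAlgebra.Projectivization

namespace Pool.Agent.Y190.AG

variable {K : Type} [Field K] {N n m : ℕ} {ι κ : Type}

theorem moving_ext {L : Type} [Field L] [Algebra K L] {k0 : Subfield K} {a : Fin (N + 1) → K}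
    (h : Moving k0 a n) :
    Moving (k0.map (algebraMap K L)) (fun i => algebraMap K L (a i)) n := by
  obtain ⟨s, C, S, hs, hC, hCk, hS, hSk⟩ := h
  have hinj := (algebraMap K L).injective
  refine ⟨algebraMap K L s, C, S, ?_, hC, fun j hj => ⟨a j, hCk j hj, rfl⟩, hS, fun j hj => ?_⟩
  · let f : k0 ≃+* k0.map (algebraMap K L) := k0.equivMapOfInjective _ hinj
    exact (transcendental_ringHom_iff_of_comp_eq f (algebraMap K L) hinj (by ext; rfl)).2 hs
  · have h1 : ∀ x ∈ IntermediateField.adjoin k0 {a j}, algebraMap K L x ∈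
        IntermediateField.adjoin (k0.map (algebraMap K L)) {algebraMap K L (a j)} := by
      intro x hx
      induction hx using IntermediateField.adjoin_induction with
      | mem x hx =>
        rw [Set.mem_singleton_iff.1 hx]
        exact IntermediateField.subset_adjoin _ _ rfl
      | algebraMap x =>
        exact IntermediateField.algebraMap_mem _
          (⟨algebraMap K L x, ⟨x, x.2, rfl⟩⟩ : k0.map (algebraMap K L))
      | add x y _ _ hx hy => rw [map_add]; exact add_mem hx hy
      | inv x _ hx => rw [map_inv₀]; exact inv_mem hx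
      | mul x y _ _ hx hy => rw [map_mul]; exact mul_mem hx hy
    let f : IntermediateField.adjoin k0 {a j} →+*
        IntermediateField.adjoin (k0.map (algebraMap K L)) {algebraMap K L (a j)} :=
      RingHom.codRestrict ((algebraMap K L).comp
        (algebraMap (IntermediateField.adjoin k0 {a j}) K)) _ fun x => h1 _ x.2
    exact (hSk j hj).ringHom_of_comp_eq f (algebraMap K L) f.injective (by ext; rfl)

theorem val_map {L : Type} [Field L] [Algebra K L] (x : Fin (N + 1) → L)
    (G : MvPolynomial (Fin (N + 1)) K) :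
    val x (MvPolynomial.map (algebraMap K L) G) = val x G := by
  unfold val
  rw [MvPolynomial.aeval_map_algebraMap]

variable [IsAlgClosed K] [CharZero K]

/-- **Finiteness over all extensions.** -/
theorem field_finite (hm : 2 ≤ m) (hn : 1 ≤ n) (hnm : n < 2 * m) {a : Fin (N + 1) → K}
    (ha : Function.Injective a) {k0 : Subfield K} (hk : Moving k0 a n)
    {F : ι → MvPolynomial (Fin (N + 1)) K} (hF : ∀ e, IsForm (F e)) (hV : Cone F ⊆ PowVal a n m)
    {G : κ → MvPolynomial (Fin (N + 1)) K} (h : LineOff F G) {L : Type} [Field L]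
    [Algebra K L] [IsAlgClosed L] (T : Finset L) : (FieldPts F G k0 T).Finite := by
  have hchL : CharZero L := charZero_of_injective_algebraMap (algebraMap K L).injective
  have hnN : n ≤ N := by
    obtain ⟨s, C, S, hs, hC, hCk, hS, hSk⟩ := hk
    have h1 := hS.trans (Finset.card_le_univ S)
    have h2 := hC.trans_le (Finset.card_le_univ C)
    rw [Fintype.card_fin] at h1 h2
    omega
  have hV' : Cone F ⊆ Cone (buchi a n m) := by rw [cone_buchi ha hnN]; exact hV
  have h1 := off_fin (m := m) hm hn hnm (a := fun i => algebraMap K L (a i))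
    ((algebraMap K L).injective.comp ha) (moving_ext hk)
    (F := fun e => MvPolynomial.map (algebraMap K L) (F e))
    (fun e => by
      obtain ⟨d, hd⟩ := hF e
      exact ⟨d, hd.map _⟩)
    (by
      rintro x ⟨hx0, hx⟩
      have hy := sub_ext hV' hx0 (fun e => by rw [← val_map]; exact hx e)
      exact ⟨hx0, intp a hnN (fun i => x i ^ m), intp_natDegree ha hnN _,
        fun i => (intp_eval ha hnN m hy i).symm⟩) T
  refine h1.subset ?_
  rintro p ⟨x, hxF, ⟨e, he⟩, hxT, hx0, rfl⟩
  refine ⟨x, ⟨hx0, fun e => by rw [val_map]; exact hxF e⟩, ?_, hxT, hx0, rfl⟩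
  rintro ⟨p, q, hpq, c, c', hxpq⟩
  apply he
  have hlin : ∀ p q : Fin (N + 1) → L,
      Line (fun e => MvPolynomial.map (algebraMap K L) (F e)) p q → x = c • p + c' • q →
        val x (G e) = 0 ∨ c = 0 := by
    intro p q hpq hx
    by_cases hc : c = 0
    · exact Or.inr hc
    · left
      have h2 := line_left hpq hc c'
      rw [← hx] at h2
      obtain ⟨i, j, hij⟩ := wedge h2.1
      refine mem_closure x q ⟨i, j, hij⟩ (fun d d' e => ?_) (fun p q hpq c c' => h p q hpq c c' e)
      have h3 := h2.2 d d' e
      rw [val_map] at h3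
      exact h3
  rcases hlin p q hpq hxpq with h2 | hc
  · exact h2
  · by_cases hc' : c' = 0
    · exact absurd (by rw [hxpq, hc, hc', zero_smul, zero_smul, add_zero]) hx0
    · have h2 := line_left (line_swap hpq) hc' c
      rw [(hxpq.trans (add_comm (c • p) (c' • q))).symm] at h2
      obtain ⟨i, j, hij⟩ := wedge h2.1
      refine mem_closure x p ⟨i, j, hij⟩ (fun d d' e => ?_) (fun p q hpq c c' => h p q hpq c c' e)
      have h3 := h2.2 d d' e
      rw [val_map] at h3
      exact h3

/-- **Grouplessness and lines.** -/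
theorem curves_tfae (hm : 2 ≤ m) (hnm : n < 2 * m) (hN4 : 4 * n < N + 1) {a : Fin (N + 1) → K}
    (ha : Function.Injective a) {F : ι → MvPolynomial (Fin (N + 1)) K} (hF : ∀ e, IsForm (F e))
    (hV : Cone F ⊆ PowVal a n m) {G : κ → MvPolynomial (Fin (N + 1)) K}
    (hG : ∀ e, IsForm (G e)) :
    [AlgHypOff F G, BoundedOff F G, GenusOneOff F G, GmOff F G, LineOff F G].TFAE := by
  -- a line that is not in `Z` gives morphisms
  have key : ∀ B : ℤ, ¬ LineOff F G → ∃ f : Fin (N + 1) → RatFunc K, MapOff F G f ∧
      B < pht K f := by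
    intro B h
    obtain ⟨u, v, e, huv, he⟩ := exists_base hG h
    have huv' := line_left huv one_ne_zero (-1)
    have hgm : GmLine ∅ F ((1 : K) • u + (-1 : K) • v) v := by
      refine ⟨huv'.1, fun c c' hc _ => ⟨fun h0 => ?_, fun j hj => absurd hj
        (Set.notMem_empty j), huv'.2 c c'⟩⟩
      exact hc (LinearIndependent.pair_iff.1 huv'.1 c c' h0).1
    obtain ⟨f, hf, hfG, hlt⟩ := gm_maps (G := G e) hgm (c := 1) (c' := 1) one_ne_zero one_ne_zero
      (by
        have h1 : (1 : K) • ((1 : K) • u + (-1 : K) • v) + (1 : K) • v = u := by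
          rw [one_smul, one_smul, one_smul, neg_one_smul, neg_add_cancel_right]
        rw [h1]
        exact he) B
    exact ⟨f, ⟨fun h0 => hf.1.elim fun i hi => hi (congrFun h0 i), hf.2.1, e, hfG⟩, hlt⟩
  tfae_have 5 → 1 := by
    intro h
    obtain ⟨B, hB⟩ := proj_bound (m := m) hm hnm hN4 ha hF hV
    refine ⟨B, fun L _ _ _ f ⟨hf0, hfF, e, he⟩ => ?_⟩
    rcases hB L f hf0 hfF with h1 | h1
    · exact h1
    · exact absurd (h1 (G e) fun p q hpq c c' => h p q hpq c c' e) he
  tfae_have 1 → 2 := fun ⟨B, hB⟩ L _ _ _ => ⟨_, fun f hf => hB L f hf⟩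
  tfae_have 2 → 5 := by
    intro h
    by_contra hcon
    obtain ⟨B, hB⟩ := h (RatFunc K)
    obtain ⟨f, hf, hlt⟩ := key B hcon
    exact absurd (hB f hf) (not_le.2 hlt)
  tfae_have 1 → 3 := by
    rintro ⟨B, hB⟩ L _ _ _ hL f hf
    have h1 := hB L f hf
    rw [max_eq_right hL, mul_zero] at h1
    obtain ⟨l, hl⟩ := Function.ne_iff.1 hf.1
    have hl' : f l ≠ 0 := hl
    have h2 : ∀ j, ∃ c : K, f j / f l = algebraMap K L c := by
      intro j
      by_cases hj : f j = 0
      · exact ⟨0, by rw [hj, zero_div, map_zero]⟩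
      · exact Pool.Agent.W603.LV.const_of_hgt
          ((Pool.Agent.W603.CX.hgt_le_pht (k := K) f hj hl').trans h1)
    choose x hx using h2
    exact ⟨f l, x, fun i => by rw [← hx, mul_div_cancel₀ _ hl']⟩
  tfae_have 3 → 5 := by
    intro h
    by_contra hcon
    obtain ⟨f, hf, hlt⟩ := key 0 hcon
    obtain ⟨c, x, hcx⟩ := h (RatFunc K) (by
      rw [Pool.Agent.W619.PQ.canDeg_rational (x := (RatFunc.X : RatFunc K)) RatFunc.adjoin_X]
      norm_num) f hf
    obtain ⟨l, hl⟩ := Function.ne_iff.1 hf.1
    have hl' : f l ≠ 0 := hl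
    have h1 := pht_le (k := K) f hl'
    have h2 : ∑ j, hgt K (f j / f l) = 0 := Finset.sum_eq_zero fun j _ => by
      have hc : c ≠ 0 := by
        rintro rfl
        apply hl'
        rw [hcx, zero_mul]
      rw [hcx j, hcx l, mul_div_mul_left _ _ hc, ← map_div₀]
      exact hgt_algebraic (isAlgebraic_algebraMap _)
    omega
  tfae_have 3 → 4 := by
    intro h P hP t ht e
    by_contra hne
    have hinj : Function.Injective (algebraMap (Polynomial K) (RatFunc K)) :=
      RatFunc.algebraMap_injective K
    have hinf : Infinite K := inferInstance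
    obtain ⟨c, x, hcx⟩ := h (RatFunc K) (by
      rw [Pool.Agent.W619.PQ.canDeg_rational (x := (RatFunc.X : RatFunc K)) RatFunc.adjoin_X]
      norm_num) (fun i => algebraMap (Polynomial K) (RatFunc K) (P i)) (by
        refine ⟨fun h0 => ?_, fun e => ?_, e, ?_⟩
        · apply hP.ne t ht
          funext i
          have h1 : P i = 0 := hinj (by rw [map_zero]; exact congrFun h0 i)
          rw [h1, Polynomial.eval_zero]
          rfl
        · obtain ⟨Q, hQ1, hQ2⟩ := val_poly P (F e)
          have h0 : Q = 0 := poly_zero fun t ht => by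
            rw [hQ1]
            exact hP.mem t ht e
          rw [← hQ2, h0, map_zero]
        · obtain ⟨Q, hQ1, hQ2⟩ := val_poly P (G e)
          rw [← hQ2]
          intro h0
          apply hne
          have h1 : Q = 0 := hinj (by rw [map_zero]; exact h0)
          rw [← hQ1, h1, Polynomial.eval_zero])
    obtain ⟨l, hl⟩ := Function.ne_iff.1 (hP.ne t ht)
    have hxl : x l ≠ 0 := by
      intro h0
      apply hl
      have h1 : P l = 0 := hinj (by
        rw [map_zero]
        have h2 := hcx l
        rw [h0, map_zero, mul_zero] at h2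
        exact h2)
      change (P l).eval t = 0
      rw [h1, Polynomial.eval_zero]
    have hprop : ∀ i, P i * Polynomial.C (x l) = P l * Polynomial.C (x i) := by
      intro i
      apply hinj
      have h1 := hcx i
      have h2 := hcx l
      have h3 : ∀ y : K, algebraMap (Polynomial K) (RatFunc K) (Polynomial.C y) =
          algebraMap K (RatFunc K) y := by
        intro y
        rw [IsScalarTower.algebraMap_apply K (Polynomial K) (RatFunc K)]
        rfl
      rw [map_mul, map_mul, h3, h3, h1, h2]
      ring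
    obtain ⟨t1, t2, ht1, ht2, hli⟩ := hP.nonconst
    have hev : ∀ s i, (P i).eval s * x l = (P l).eval s * x i := by
      intro s i
      have h1 := congrArg (Polynomial.eval s) (hprop i)
      rwa [Polynomial.eval_mul, Polynomial.eval_mul, Polynomial.eval_C, Polynomial.eval_C] at h1
    have h1 := LinearIndependent.pair_iff.1 hli ((P l).eval t2) (-(P l).eval t1) (by
      funext i
      simp only [Pi.add_apply, Pi.smul_apply, smul_eq_mul, Pi.zero_apply]
      have h2 := hev t1 i
      have h3 := hev t2 i
      apply mul_right_cancel₀ hxl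
      linear_combination (P l).eval t2 * h2 - (P l).eval t1 * h3)
    apply hP.ne t2 ht2
    funext i
    have h2 := hev t2 i
    rw [h1.1, zero_mul] at h2
    exact (mul_eq_zero.1 h2).resolve_right hxl
  tfae_have 4 → 5 := by
    intro h
    by_contra hcon
    obtain ⟨u, v, e, huv, he⟩ := exists_base hG hcon
    have huv' := line_left huv one_ne_zero (-1)
    have hinf : Infinite K := inferInstance
    have h1 := line_key (G := G e) (fun P hP t ht => h P hP t ht e) huv'
    rw [one_smul, neg_one_smul, neg_add_cancel_right] at h1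
    exact he h1
  tfae_finish

theorem line_of_ring {F : ι → MvPolynomial (Fin (N + 1)) K}
    {G : κ → MvPolynomial (Fin (N + 1)) K} (hG : ∀ e, IsForm (G e))
    (h : ∀ T : Finset K, (RingPts F G T).Finite) : LineOff F G := by
  by_contra hcon
  obtain ⟨u, v, e, huv, he⟩ := exists_base hG hcon
  obtain ⟨T, hT⟩ := ring_infinite huv he
  exact hT (h T)

theorem ring_of_field {F : ι → MvPolynomial (Fin (N + 1)) K}
    {G : κ → MvPolynomial (Fin (N + 1)) K} {k0 : Subfield K} {T : Finset K}
    (h : (FieldPts F G k0 T).Finite) : (RingPts F G T).Finite := by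
  refine h.subset ?_
  rintro p ⟨x, h1, h2, h3, -, h5⟩
  refine ⟨x, h1, h2, fun i => ?_, h5⟩
  have h6 : Subring.closure (T : Set K) ≤ (Subfield.closure
      ((k0.map (algebraMap K K) : Set K) ∪ (T : Set K))).toSubring :=
    Subring.closure_le.2 fun z hz => Subfield.subset_closure (Or.inr hz)
  exact h6 (h3 i)

/-- **Grouplessness and arithmetic hyperbolicity.** -/
theorem groupless_tfae (hm : 2 ≤ m) (hn : 1 ≤ n) (hnm : n < 2 * m) {a : Fin (N + 1) → K}
    (ha : Function.Injective a) {k0 : Subfield K} (hk : Moving k0 a n)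
    {F : ι → MvPolynomial (Fin (N + 1)) K} (hF : ∀ e, IsForm (F e)) (hV : Cone F ⊆ PowVal a n m)
    {G : κ → MvPolynomial (Fin (N + 1)) K} (hG : ∀ e, IsForm (G e)) :
    [∀ (L : Type) [Field L] [Algebra K L] [IsAlgClosed L] (T : Finset L),
        (FieldPts F G k0 T).Finite,
      ∀ T : Finset K, (RingPts F G T).Finite, LineOff F G].TFAE := by
  tfae_have 3 → 1 := fun h L _ _ _ T => field_finite hm hn hnm ha hk hF hV h T
  tfae_have 1 → 2 := fun h T => ring_of_field (h K T)
  tfae_have 2 → 3 := line_of_ring hG
  tfae_finish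

end Pool.Agent.Y190.AG
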